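import Pool.Agent.helper31.GPR.Spec

set_option autoImplicit false

namespace Pool.Agent.GPR

open Pool.Agent.helper25.QST

theorem KR2_comap {V : Type} [AddCommGroup V] [Module (ZMod 2) V] [Finite V] (f : V →ₗ[ZMod 2] V)
    (W : Submodule (ZMod 2) V) :
    Module.finrank (ZMod 2) (W.comap f) ≤ Module.finrank (ZMod 2) W + Module.finrank (ZMod 2) (LinearMap.ker f) := by
  let g : W.comap f →ₗ[ZMod 2] W := f.restrict (fun x hx => hx)
  have h1 := LinearMap.finrank_range_add_finrank_ker g
  have h2 : Module.finrank (ZMod 2) (LinearMap.range g) ≤ Module.finrank (ZMod 2) W :=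
    Submodule.finrank_le _
  have h3 : Module.finrank (ZMod 2) (LinearMap.ker g) ≤ Module.finrank (ZMod 2) (LinearMap.ker f) := by
    let k : LinearMap.ker g →ₗ[ZMod 2] LinearMap.ker f :=
      LinearMap.codRestrict (LinearMap.ker f) ((W.comap f).subtype.comp (LinearMap.ker g).subtype) (by
        intro x
        have hx := x.2
        rw [LinearMap.mem_ker] at hx ⊢
        have := congrArg Subtype.val hx
        exact this)
    refine LinearMap.finrank_le_finrank_of_injective (f := k) ?_
    intro x y hxy
    have h4 : ((k x : LinearMap.ker f) : V) = ((k y : LinearMap.ker f) : V) := by rw [hxy]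
    exact Subtype.ext (Subtype.ext h4)
  omega

theorem KR2 : KR2_stmt := by
  intro V _ _ _ D W hk hW e e'
  set U : Submodule (ZMod 2) V := (W.comap (D + e • LinearMap.id)).comap (D + e' • LinearMap.id) with hU
  have h1 := KR2_comap (D + e • LinearMap.id) W
  have h2 := KR2_comap (D + e' • LinearMap.id) (W.comap (D + e • LinearMap.id))
  have h3 := hk e
  have h4 := hk e'
  have h5 : Module.finrank (ZMod 2) U ≤ 10 := by
    rw [hU]
    omega
  have h6 : {y : V | (D + e • (LinearMap.id : V →ₗ[ZMod 2] V)) ((D + e' • (LinearMap.id : V →ₗ[ZMod 2] V)) y) ∈ W} =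
      (U : Set V) := rfl
  rw [h6, ← Nat.card_coe_set_eq]
  have h7 : Nat.card U = 2 ^ Module.finrank (ZMod 2) U := by
    rw [Module.natCard_eq_pow_finrank (K := ZMod 2), Nat.card_zmod]
  have h8 : Nat.card ((U : Set V)) = Nat.card U := rfl
  rw [h8, h7]
  exact Nat.pow_le_pow_right (by norm_num) h5

end Pool.Agent.GPR
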